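import Pool.Agent.H37.CPX.Targets

/-!
# Row GRD of `cpx_modules` (helper63)

Greedy decomposition into cylinders and a spread rest.
-/

namespace Pool.Agent.H63.CPX

open Finset Pool.Agent.H37.CPX

/-- the inequality for one step -/
theorem num (a c e : ℝ) (n : ℕ) (hn : 1 ≤ n) (he : 0 < e) (hc : 0 < c) (hca : c ≤ a)
    (h : a < c * (e ^ 2) ^ n) :
    2 * (Real.sqrt c * (1 / (4 * e)) ^ n) + Real.sqrt (a - c) ≤ Real.sqrt a := by
  have ha : 0 < a := lt_of_lt_of_le hc hca
  have hE : 0 < e ^ n := pow_pos he n
  obtain ⟨E, hEe⟩ : ∃ E, E = e ^ n := ⟨_, rfl⟩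
  rw [← hEe] at hE
  have h1 : (e ^ 2) ^ n = E ^ 2 := by rw [hEe, ← pow_mul, ← pow_mul, mul_comm]
  rw [h1] at h
  have hs0 := Real.sqrt_nonneg a
  have ht0 := Real.sqrt_nonneg (a - c)
  have hr0 : 0 < Real.sqrt c := Real.sqrt_pos.mpr hc
  have hs2 : Real.sqrt a ^ 2 = a := Real.sq_sqrt ha.le
  have ht2 : Real.sqrt (a - c) ^ 2 = a - c := Real.sq_sqrt (by linarith)
  have hr2 : Real.sqrt c ^ 2 = c := Real.sq_sqrt hc.le
  obtain ⟨s, hs⟩ : ∃ s, s = Real.sqrt a := ⟨_, rfl⟩
  obtain ⟨t, ht⟩ : ∃ t, t = Real.sqrt (a - c) := ⟨_, rfl⟩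
  obtain ⟨r, hr⟩ : ∃ r, r = Real.sqrt c := ⟨_, rfl⟩
  rw [← hs] at hs0 hs2 ⊢
  rw [← ht] at ht0 ht2 ⊢
  rw [← hr] at hr0 hr2 ⊢
  have hsr : s < r * E := by
    have : s ^ 2 < (r * E) ^ 2 := by rw [mul_pow, hs2, hr2]; exact h
    exact lt_of_pow_lt_pow_left₀ 2 (by positivity) this
  have hts : t ≤ s := by
    have : t ^ 2 ≤ s ^ 2 := by rw [hs2, ht2]; linarith
    exact (pow_le_pow_iff_left₀ ht0 hs0 (by norm_num)).mp this
  have hprod : (s - t) * (s + t) = r ^ 2 := by
    have : (s - t) * (s + t) = s ^ 2 - t ^ 2 := by ring
    rw [this, hs2, ht2, hr2]; ring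
  have hge : r ^ 2 ≤ (s - t) * (2 * (r * E)) := by
    rw [← hprod]
    exact mul_le_mul_of_nonneg_left (by linarith) (by linarith)
  have hge2 : r ≤ (s - t) * (2 * E) := by
    have h3 : r * r ≤ r * ((s - t) * (2 * E)) := by nlinarith
    exact le_of_mul_le_mul_left h3 hr0
  have hpw : (1 / (4 * e)) ^ n = 1 / (4 ^ n * E) := by
    rw [div_pow, one_pow, mul_pow, hEe]
  have h4 : (4 : ℝ) ≤ 4 ^ n := by
    calc (4 : ℝ) = 4 ^ 1 := by norm_num
      _ ≤ 4 ^ n := pow_le_pow_right₀ (by norm_num) hn
  have hfin : 2 * (r * (1 / (4 * e)) ^ n) ≤ s - t := by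
    rw [hpw]
    have h5 : (1 : ℝ) / (4 ^ n * E) ≤ 1 / (4 * E) :=
      one_div_le_one_div_of_le (by positivity) (mul_le_mul_of_nonneg_right h4 hE.le)
    have h6 : 2 * (r * (1 / (4 ^ n * E))) ≤ 2 * (r * (1 / (4 * E))) := by
      have := mul_le_mul_of_nonneg_left h5 hr0.le
      linarith
    have h7 : 2 * (r * (1 / (4 * E))) = r / (2 * E) := by
      field_simp
      norm_num
    rw [h7] at h6
    have h8 : r / (2 * E) ≤ s - t := (div_le_iff₀ (by positivity)).mpr hge2
    exact h6.trans h8
  linarith

theorem sqrt_add_le' (a b : ℝ) (ha : 0 ≤ a) (hb : 0 ≤ b) :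
    Real.sqrt (a + b) ≤ Real.sqrt a + Real.sqrt b := by
  apply Real.sqrt_le_iff.mpr
  have h1 := Real.sqrt_nonneg a
  have h2 := Real.sqrt_nonneg b
  refine ⟨add_nonneg h1 h2, ?_⟩
  have h3 := Real.sq_sqrt ha
  have h4 := Real.sq_sqrt hb
  nlinarith [mul_nonneg h1 h2]

section
variable {N : ℕ} {Q : Type}

theorem mem_cyl {U : Finset (Fin N)} {u : U → Q} {A : Finset (Fin N → Q)} {x : Fin N → Q} :
    x ∈ cyl U u A ↔ x ∈ A ∧ ∀ i : U, x i = u i := by
  classical
  unfold cyl
  rw [mem_filter]

end

/-- The target. -/
theorem pf_GRD : S_GRD := by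
  classical
  intro N Q _ e T A he
  induction A using Finset.strongInduction with
  | H A ih =>
    by_cases hS : Spr (e ^ 2) 1 T A
    · refine ⟨fun _ => ∅, A, fun _ => empty_subset _, Subset.refl _, ?_, ?_, ?_, ?_, hS, ?_⟩
      · intro U hU
        exact absurd hU not_nonempty_empty
      · intro U U' _
        exact disjoint_empty_left _
      · intro U
        exact disjoint_empty_left _
      · intro x hx
        exact Or.inl hx
      · have h0 : ∀ U : Finset (Fin N), (∑ u : U → Q,
            Real.sqrt ((cyl U u (∅ : Finset (Fin N → Q))).card)) * (1 / (4 * e)) ^ U.card = 0 := by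
          intro U
          have : ∀ u : U → Q, Real.sqrt ((cyl U u (∅ : Finset (Fin N → Q))).card) = 0 := by
            intro u
            have h1 : cyl U u (∅ : Finset (Fin N → Q)) = ∅ := by
              unfold cyl
              exact filter_empty _
            rw [h1, card_empty, Nat.cast_zero, Real.sqrt_zero]
          rw [sum_congr rfl (fun u _ => this u), sum_const_zero, zero_mul]
        rw [sum_congr rfl (fun U _ => h0 U), sum_const_zero, mul_zero, zero_add]
    · unfold Spr at hS
      push Not at hS
      obtain ⟨U, hUn, hUT, u, hlt⟩ := hS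
      rw [one_mul] at hlt
      have hcpos : 0 < ((cyl U u A).card : ℝ) := by
        rcases Nat.eq_zero_or_pos (cyl U u A).card with h | h
        · rw [h, Nat.cast_zero, zero_mul] at hlt
          exact absurd hlt (not_lt.mpr (Nat.cast_nonneg _))
        · exact_mod_cast h
      have hcA : cyl U u A ⊆ A := fun x hx => (mem_cyl.mp hx).1
      have hne : (cyl U u A).Nonempty := card_pos.mp (by exact_mod_cast hcpos)
      have hss : A \ cyl U u A ⊂ A := sdiff_ssubset hcA hne
      obtain ⟨C', R', h1, h2, h3, h4, h5, h6, h7, h8⟩ := ih _ hss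
      have hA'A : A \ cyl U u A ⊆ A := sdiff_subset
      have hdisj : ∀ S : Finset (Fin N → Q), S ⊆ A \ cyl U u A → Disjoint (cyl U u A) S := by
        intro S hS
        exact (disjoint_sdiff).mono_right hS
      obtain ⟨C, hC⟩ : ∃ C : Finset (Fin N) → Finset (Fin N → Q),
          C = fun V => if V = U then C' V ∪ cyl U u A else C' V := ⟨_, rfl⟩
      have hCU : C U = C' U ∪ cyl U u A := by rw [hC]; exact if_pos rfl
      have hCV : ∀ V, V ≠ U → C V = C' V := by
        intro V hV
        rw [hC]; exact if_neg hV
      have hmem : ∀ V x, x ∈ C V → x ∈ C' V ∨ (V = U ∧ x ∈ cyl U u A) := by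
        intro V x hx
        by_cases hV : V = U
        · rw [hV, hCU] at hx
          rcases mem_union.mp hx with h | h
          · left; rw [hV]; exact h
          · exact Or.inr ⟨hV, h⟩
        · rw [hCV V hV] at hx
          exact Or.inl hx
      refine ⟨C, R', ?_, h2.trans hA'A, ?_, ?_, ?_, ?_, h7, ?_⟩
      · intro V x hx
        rcases hmem V x hx with h | h
        · exact hA'A (h1 V h)
        · exact hcA h.2
      · intro V hV
        by_cases hVU : V = U
        · rw [hVU]; exact ⟨hUn, hUT⟩
        · rw [hCV V hVU] at hV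
          exact h3 V hV
      · intro V V' hVV
        rw [disjoint_left]
        intro x hx hx'
        rcases hmem V x hx with h | h
        · rcases hmem V' x hx' with h' | h'
          · exact disjoint_left.mp (h4 V V' hVV) h h'
          · exact (mem_sdiff.mp (h1 V h)).2 h'.2
        · rcases hmem V' x hx' with h' | h'
          · exact (mem_sdiff.mp (h1 V' h')).2 h.2
          · exact hVV (h.1.trans h'.1.symm)
      · intro V
        rw [disjoint_left]
        intro x hx hx'
        rcases hmem V x hx with h | h
        · exact disjoint_left.mp (h5 V) h hx'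
        · exact (mem_sdiff.mp (h2 hx')).2 h.2
      · intro x hx
        by_cases hxc : x ∈ cyl U u A
        · right
          refine ⟨U, ?_⟩
          rw [hCU]
          exact mem_union_right _ hxc
        · rcases h6 x (mem_sdiff.mpr ⟨hx, hxc⟩) with h | ⟨V, hV⟩
          · exact Or.inl h
          · right
            refine ⟨V, ?_⟩
            by_cases hVU : V = U
            · rw [hVU, hCU]
              rw [hVU] at hV
              exact mem_union_left _ hV
            · rw [hCV V hVU]; exact hV
      · -- the numbers
        have hsumU : ∑ v : U → Q, Real.sqrt ((cyl U v (C U)).card) ≤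
            Real.sqrt ((cyl U u A).card) + ∑ v : U → Q, Real.sqrt ((cyl U v (C' U)).card) := by
          have hpt : ∀ v : U → Q, Real.sqrt ((cyl U v (C U)).card) ≤
              (if v = u then Real.sqrt ((cyl U u A).card) else 0) +
                Real.sqrt ((cyl U v (C' U)).card) := by
            intro v
            by_cases hv : v = u
            · rw [if_pos hv, hv]
              have hsub : cyl U u (C U) ⊆ cyl U u A ∪ cyl U u (C' U) := by
                intro x hx
                obtain ⟨hx1, hx2⟩ := mem_cyl.mp hx
                rcases hmem U x hx1 with h | h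
                · exact mem_union_right _ (mem_cyl.mpr ⟨h, hx2⟩)
                · exact mem_union_left _ h.2
              have hcard : ((cyl U u (C U)).card : ℝ) ≤
                  (cyl U u A).card + (cyl U u (C' U)).card := by
                have := (card_le_card hsub).trans (card_union_le _ _)
                exact_mod_cast this
              refine (Real.sqrt_le_sqrt hcard).trans ?_
              exact sqrt_add_le' _ _ (Nat.cast_nonneg _) (Nat.cast_nonneg _)
            · rw [if_neg hv, zero_add]
              have hsub : cyl U v (C U) ⊆ cyl U v (C' U) := by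
                intro x hx
                obtain ⟨hx1, hx2⟩ := mem_cyl.mp hx
                rcases hmem U x hx1 with h | h
                · exact mem_cyl.mpr ⟨h, hx2⟩
                · exfalso
                  apply hv
                  funext i
                  rw [← hx2 i, (mem_cyl.mp h.2).2 i]
              apply Real.sqrt_le_sqrt
              exact_mod_cast card_le_card hsub
          refine (sum_le_sum (fun v _ => hpt v)).trans ?_
          rw [sum_add_distrib, sum_ite_eq' univ u, if_pos (mem_univ u)]
        have hq0 : 0 < 1 / (4 * e) := by positivity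
        have hterm : ∀ V : Finset (Fin N),
            (∑ v : V → Q, Real.sqrt ((cyl V v (C V)).card)) * (1 / (4 * e)) ^ V.card ≤
              (if V = U then Real.sqrt ((cyl U u A).card) * (1 / (4 * e)) ^ U.card else 0) +
              (∑ v : V → Q, Real.sqrt ((cyl V v (C' V)).card)) * (1 / (4 * e)) ^ V.card := by
          intro V
          by_cases hV : V = U
          · subst hV
            rw [if_pos rfl, ← add_mul]
            exact mul_le_mul_of_nonneg_right hsumU (pow_nonneg hq0.le _)
          · rw [if_neg hV, zero_add, hCV V hV]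
        have hsum := sum_le_sum (fun V (_ : V ∈ (univ : Finset (Finset (Fin N)))) => hterm V)
        rw [sum_add_distrib, sum_ite_eq' univ U, if_pos (mem_univ U)] at hsum
        have hcardA : ((A \ cyl U u A).card : ℝ) = A.card - (cyl U u A).card := by
          have := card_sdiff_add_card_eq_card hcA
          have h9 : ((A \ cyl U u A).card : ℝ) + (cyl U u A).card = A.card := by
            exact_mod_cast this
          linarith
        rw [hcardA] at h8
        have hn := num (A.card : ℝ) ((cyl U u A).card) e U.card (card_pos.mpr hUn) he hcpos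
          (by exact_mod_cast card_le_card hcA) hlt
        linarith

end Pool.Agent.H63.CPX
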